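import Pool.Agent.Lib.UB93.Lines

/-!
Borel isomorphism of acyclic two-regular Borel graphs is a universal `Σ¹₂` equivalence relation.
-/

namespace Pool.Agent.Results.MP_389802_lc.Lines

open Pool.Agent.Lib.BIso Pool.Agent.Lib.UB93 Set MeasureTheory

theorem result (Y : Type) [TopologicalSpace Y] [PolishSpace Y] [MeasurableSpace Y] [BorelSpace Y]
    (E : Set (Y × Y)) (hE : Sigma12 E) (eq : Equivalence fun a b => (a, b) ∈ E) :
    ∃ f : Y → Code, Measurable f ∧ (∀ y, ∃ G, CodesG (f y) G ∧ Line G) ∧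
      ∀ y y', (y, y') ∈ E ↔ (f y, f y') ∈ IsoB :=
  univ_line Y E hE eq

end Pool.Agent.Results.MP_389802_lc.Lines
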