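import Pool.Agent.Lib.UB93.Fib
import Pool.Agent.Lib.UB93.Sets

/-!
Borel isomorphism of Borel graphs is `Σ¹₂`, not `Π¹₂`, complete as a set, and a universal `Σ¹₂`
equivalence relation, already on smooth forests of degree at most three.
-/

namespace Pool.Agent.Results.MP_389802_lc.Universal

open Pool.Agent.Lib.BIso Pool.Agent.Lib.UB93 Set MeasureTheory

theorem result : Sigma12 IsoB ∧
    (¬ ∃ P : Set (Code × Code), Sigma12 P ∧
      ∀ c d G H, CodesG c G → CodesG d H → ((c, d) ∈ P ↔ (c, d) ∉ IsoB)) ∧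
    (∃ (d : Code) (H : SimpleGraph X), CodesG d H ∧ Nice H ∧
      ∀ (Y : Type) [TopologicalSpace Y] [PolishSpace Y] [MeasurableSpace Y] [BorelSpace Y]
        (S : Set Y), Sigma12 S → ∃ f : Y → Code, Measurable f ∧
          (∀ y, ∃ G, CodesG (f y) G ∧ Nice G) ∧ ∀ y, y ∈ S ↔ (d, f y) ∈ IsoB) ∧
    ∀ (Y : Type) [TopologicalSpace Y] [PolishSpace Y] [MeasurableSpace Y] [BorelSpace Y]
      (E : Set (Y × Y)), Sigma12 E → Equivalence (fun a b => (a, b) ∈ E) →
        ∃ f : Y → Code, Measurable f ∧ (∀ y, ∃ G, CodesG (f y) G ∧ Nice G) ∧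
          ∀ y y', (y, y') ∈ E ↔ (f y, f y') ∈ IsoB := by
  refine ⟨complete.1, complete.2.1, complete.2.2, fun Y _ _ _ _ E hE eq => ?_⟩
  obtain ⟨e⟩ : Nonempty (X ≃ᵐ J × ℕ × Bool) := ⟨PolishSpace.measurableEquivOfNotCountable
    (unc _ Function.surjective_id)
    (unc (fun v => v.1.1.1) fun x => ⟨(((x, x), default), default), rfl⟩)⟩
  obtain ⟨i, D, i1, d1, d2, d3, d4⟩ := fibres hE eq
  obtain ⟨c, c1, c2⟩ := fam e d1
  refine ⟨c ∘ i, c1.comp i1, fun y => ⟨_, c2 _, nice e (by fun_prop)⟩, fun y y' =>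
    .trans ⟨fun h => ?_, fun ⟨φ, h⟩ => ?_⟩ (iso_comap e (c2 (i y)) (c2 (i y'))).symm⟩
  · obtain ⟨ψ, p1, p2, p3⟩ := d3 y y' h
    exact ⟨catIso ψ p2 fun j => funext fun k => by rw [lb, lb, p3],
      (p1.comp measurable_fst).prodMk measurable_snd⟩
  · refine d4 y y' (fun b => (φ (((i y, b), default, 0, true), 1, false)).1) (by fun_prop)
      fun b => ?_
    obtain ⟨a, t⟩ := rigid φ (j := ((i y, b), default, 0, true)) (d2 _ _)
    exact ⟨a, (bas_inj t).symm⟩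

end Pool.Agent.Results.MP_389802_lc.Universal
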